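import Pool.Agent.W805.LR.Stm7
import Pool.Agent.W588.PD.CN

/-!
# PD3-CM: comparison of rates
-/

set_option autoImplicit false

namespace Pool.Agent.W571.PD.CM

open Finset Equiv Filter Topology NormedSpace
open Pool.Agent.W805.LR Pool.Agent.W32.LR Pool.Agent.W588.PD.CN Pool.Agent.W805.PD

section

variable {V : Type} [Fintype V] [DecidableEq V]

lemma pow_one_fun (J : V → V → ℝ) (hJ : ∀ x y, 0 ≤ J x y) (u : ℝ) (hu : 0 ≤ u) (m : ℕ)
    (g : Perm V) : (qq J u ^ m) (fun _ => (1 : ℝ)) g = 1 := by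
  induction m generalizing g with
  | zero => simp
  | succ m ih =>
    rw [pow_succ']
    change qq J u ((qq J u ^ m) (fun _ => (1 : ℝ))) g = 1
    have : (qq J u ^ m) (fun _ => (1 : ℝ)) = fun _ => 1 := funext ih
    rw [this]
    exact qq_const J hJ _ hu 1 g

lemma EE_eq (J : V → V → ℝ) (t : ℝ) (F : Perm V → ℝ) :
    EE J t F = (exp (t • gen J)) F 1 / (exp (t • gen J)) (fun _ => (1 : ℝ)) 1 := by
  unfold EE
  have e0 : ∑ g, stirMass J t g = ∑ g, stirMass J t g * (fun _ : Perm V => (1 : ℝ)) g := by simp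
  rw [e0, sum_stirMass J t F, sum_stirMass J t (fun _ => (1 : ℝ))]

lemma den_eq (J : V → V → ℝ) (hJ : ∀ x y, 0 ≤ J x y) (t : ℝ) (ht : 0 ≤ t) :
    (exp (t • gen J)) (fun _ => (1 : ℝ)) 1 = Real.exp (t * tot J) := by
  refine tendsto_nhds_unique (tends J t (fun _ => (1 : ℝ))) ?_
  refine (Real.tendsto_one_add_div_pow_exp (t * tot J)).congr fun M => ?_
  have hu : 0 ≤ t / M := by positivity
  rw [pow_qq J hJ _ hu, pow_one_fun J hJ _ hu, mul_one]
  congr 1
  ring

lemma EE_tends (J : V → V → ℝ) (hJ : ∀ x y, 0 ≤ J x y) (t : ℝ) (ht : 0 ≤ t) (F : Perm V → ℝ) :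
    Tendsto (fun M : ℕ => (qq J (t / M) ^ M) F 1) atTop (𝓝 (EE J t F)) := by
  rw [EE_eq]
  have hne : (exp (t • gen J)) (fun _ => (1 : ℝ)) 1 ≠ 0 := by
    rw [den_eq J hJ t ht]
    exact (Real.exp_pos _).ne'
  have l1 := (tends J t F).div (tends J t (fun _ => (1 : ℝ))) hne
  refine l1.congr fun M => ?_
  have hu : 0 ≤ t / M := by positivity
  rw [Pi.div_apply]
  rw [pow_qq J hJ _ hu, pow_qq J hJ _ hu, pow_one_fun J hJ _ hu, mul_one]
  have h0 := tot_nonneg J hJ
  have hc : (1 + t / M * tot J) ^ M ≠ 0 := by positivity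
  field_simp

lemma avg (K : V → V → ℝ) (hK : ∀ x y, 0 ≤ K x y) {D : ℝ} {F : Perm V → ℝ} (h : Lip D F)
    (g : Perm V) : |∑ x, ∑ y, K x y / 2 * F (g * swap x y) - tot K * F g| ≤ tot K * D := by
  have e : ∑ x, ∑ y, K x y / 2 * F (g * swap x y) - tot K * F g =
      ∑ x, ∑ y, K x y / 2 * (F (g * swap x y) - F g) := by
    simp only [mul_sub, Finset.sum_sub_distrib, tot, Finset.sum_mul]
  rw [e]
  refine (Finset.abs_sum_le_sum_abs _ _).trans ?_
  rw [tot, Finset.sum_mul]
  refine Finset.sum_le_sum fun z _ => ?_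
  refine (Finset.abs_sum_le_sum_abs _ _).trans ?_
  rw [Finset.sum_mul]
  refine Finset.sum_le_sum fun w _ => ?_
  have hz : 0 ≤ K z w / 2 := div_nonneg (hK z w) (by norm_num)
  rw [abs_mul, abs_of_nonneg hz]
  have := h g 1 z w
  rw [mul_one, mul_one] at this
  exact mul_le_mul_of_nonneg_left this hz

lemma one {J w : V → V → ℝ} (hJ : ∀ x y, 0 ≤ J x y) (hw : ∀ x y, 0 ≤ w x y) {u : ℝ} (hu : 0 ≤ u)
    {D : ℝ} (hD : 0 ≤ D) {F : Perm V → ℝ} (h : Lip D F) (g : Perm V) :
    |qq (fun x y => J x y + w x y) u F g - qq J u F g| ≤ u * tot w * D := by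
  have hJ0 := tot_nonneg J hJ
  have hw0 := tot_nonneg w hw
  have h1 := avg J hJ h g
  have h2 := avg w hw h g
  have htot : tot (fun x y => J x y + w x y) = tot J + tot w := by
    simp [tot, add_div, Finset.sum_add_distrib]
  have hsum : ∑ x, ∑ y, (J x y + w x y) / 2 * F (g * swap x y) =
      ∑ x, ∑ y, J x y / 2 * F (g * swap x y) + ∑ x, ∑ y, w x y / 2 * F (g * swap x y) := by
    simp only [add_div, add_mul, Finset.sum_add_distrib]
  rw [qq_apply, qq_apply, htot, hsum]
  set A := ∑ x, ∑ y, J x y / 2 * F (g * swap x y)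
  set B := ∑ x, ∑ y, w x y / 2 * F (g * swap x y)
  set TJ := tot J
  set Tw := tot w
  set f := F g
  have hc : 0 < 1 + u * TJ := by positivity
  have hc' : 0 < 1 + u * (TJ + Tw) := by positivity
  have e : (1 + u * (TJ + Tw))⁻¹ * (f + u * (A + B)) - (1 + u * TJ)⁻¹ * (f + u * A) =
      (u * ((1 + u * TJ) * (B - Tw * f) - u * Tw * (A - TJ * f))) /
        ((1 + u * TJ) * (1 + u * (TJ + Tw))) := by
    field_simp
    ring
  rw [e, abs_div, abs_of_pos (mul_pos hc hc'), div_le_iff₀ (mul_pos hc hc'), abs_mul,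
    abs_of_nonneg hu]
  have h3 : |(1 + u * TJ) * (B - Tw * f) - u * Tw * (A - TJ * f)| ≤
      (1 + u * TJ) * (Tw * D) + u * Tw * (TJ * D) := by
    refine (abs_sub _ _).trans ?_
    rw [abs_mul, abs_mul, abs_of_pos hc, abs_of_nonneg (mul_nonneg hu hw0)]
    exact add_le_add (mul_le_mul_of_nonneg_left h2 hc.le)
      (mul_le_mul_of_nonneg_left h1 (mul_nonneg hu hw0))
  have h4 : u * ((1 + u * TJ) * (Tw * D) + u * Tw * (TJ * D)) ≤
      u * Tw * D * ((1 + u * TJ) * (1 + u * (TJ + Tw))) := by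
    have e2 : u * Tw * D * ((1 + u * TJ) * (1 + u * (TJ + Tw))) -
        u * ((1 + u * TJ) * (Tw * D) + u * Tw * (TJ * D)) =
        u * Tw * D * ((u * TJ) * (u * (TJ + Tw)) + u * Tw) := by ring
    have h5 : 0 ≤ u * Tw * D * ((u * TJ) * (u * (TJ + Tw)) + u * Tw) := by positivity
    linarith
  exact (mul_le_mul_of_nonneg_left h3 hu).trans h4

lemma tele {J w : V → V → ℝ} (hJ : ∀ x y, 0 ≤ J x y) (hw : ∀ x y, 0 ≤ w x y) {u : ℝ} (hu : 0 ≤ u)
    {D : ℝ} (hD : 0 ≤ D) {F : Perm V → ℝ} (h : Lip D F) (m : ℕ) (g : Perm V) :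
    |(qq (fun x y => J x y + w x y) u ^ m) F g - (qq J u ^ m) F g| ≤ m * (u * tot w * D) := by
  have hJw : ∀ x y, 0 ≤ J x y + w x y := fun x y => add_nonneg (hJ x y) (hw x y)
  induction m generalizing g with
  | zero => simp
  | succ m ih =>
    set K : V → V → ℝ := fun x y => J x y + w x y with hK
    have e1 : ∀ (L : V → V → ℝ) (X : Perm V → ℝ), (qq L u ^ (m + 1)) X =
        qq L u ((qq L u ^ m) X) := by
      intro L X
      rw [pow_succ']
      rfl
    rw [e1, e1]
    set G' := (qq K u ^ m) F with hG'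
    set G := (qq J u ^ m) F with hG
    have hL : Lip D G := h.pow hJ hu m
    set e := (m : ℝ) * (u * tot w * D) with he
    have h1 : qq K u G' g ≤ qq K u G g + e := by
      have h2 : qq K u G' g ≤ qq K u (fun k => G k + e) g := by
        apply qq_mono K hJw u hu
        intro k
        have := abs_le.1 (ih k)
        linarith
      have h3 : qq K u (fun k => G k + e) g = qq K u G g + e := by
        have : (fun k => G k + e) = G + (fun _ : Perm V => e) := rfl
        rw [this, map_add, Pi.add_apply, qq_const K hJw u hu]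
      linarith
    have h1' : qq K u G g ≤ qq K u G' g + e := by
      have h2 : qq K u G g ≤ qq K u (fun k => G' k + e) g := by
        apply qq_mono K hJw u hu
        intro k
        have := abs_le.1 (ih k)
        linarith
      have h3 : qq K u (fun k => G' k + e) g = qq K u G' g + e := by
        have : (fun k => G' k + e) = G' + (fun _ : Perm V => e) := rfl
        rw [this, map_add, Pi.add_apply, qq_const K hJw u hu]
      linarith
    have h4 := abs_le.1 (one hJ hw hu hD hL g)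
    rw [Nat.cast_succ, abs_le]
    constructor
    · linarith [h4.1]
    · linarith [h4.2]

theorem cmp (J w : V → V → ℝ) (t D : ℝ) (F : Perm V → ℝ) (hJ : ∀ x y, 0 ≤ J x y)
    (hw : ∀ x y, 0 ≤ w x y) (ht : 0 ≤ t) (h : Lip D F) :
    |EE (fun x y => J x y + w x y) t F - EE J t F| ≤ t * (∑ x, ∑ y, w x y / 2) * D := by
  rcases isEmpty_or_nonempty V with hV | ⟨⟨x0⟩⟩
  · have e : (fun x y => J x y + w x y) = J := funext fun x => (hV.false x).elim
    rw [e, sub_self, abs_zero]
    simp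
  · have hD : 0 ≤ D := (abs_nonneg _).trans (h 1 1 x0 x0)
    change _ ≤ t * tot w * D
    have l1 := EE_tends (fun x y => J x y + w x y) (fun x y => add_nonneg (hJ x y) (hw x y)) t ht F
    have l2 := EE_tends J hJ t ht F
    refine le_of_tendsto (l1.sub l2).abs ?_
    filter_upwards [eventually_gt_atTop 0] with M hM
    have hM' : (0 : ℝ) < M := by exact_mod_cast hM
    have hu : 0 ≤ t / M := by positivity
    have h1 := tele hJ hw hu hD h M 1
    have h2 : (M : ℝ) * (t / M * tot w * D) = t * tot w * D := by field_simp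
    rw [h2] at h1
    exact h1

end

/-- PD3-CM. -/
theorem main : Pool.Agent.W805.PD.S_cmp := by
  intro V _ _ J w t D F hJ hw ht hF
  exact cmp J w t D F hJ hw ht hF

end Pool.Agent.W571.PD.CM
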