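import Pool.Agent.W571.PD.CM

/-!
# PD3-SU: the cycle of a point of an isolated part of the space
-/

set_option autoImplicit false

namespace Pool.Agent.W571.PD.SU

open Finset Equiv Filter Topology NormedSpace
open Pool.Agent.W805.LR Pool.Agent.W32.LR Pool.Agent.W588.PD.CN Pool.Agent.W805.PD
open Pool.Agent.W571.PD.CM

section

variable {U V : Type} [Fintype U] [DecidableEq U] [Fintype V] [DecidableEq V]

lemma split (ι : U ↪ V) (φ : V → ℝ) :
    open Classical in ∑ x, φ x = ∑ a, φ (ι a) + ∑ x, if x ∈ Set.range ι then 0 else φ x := by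
  classical
  have e1 : ∑ a, φ (ι a) = ∑ x, if x ∈ Set.range ι then φ x else 0 := by
    rw [← Finset.sum_map univ ι φ, ← Finset.sum_filter]
    refine Finset.sum_congr ?_ fun _ _ => rfl
    ext x
    simp
  rw [e1, ← Finset.sum_add_distrib]
  refine Finset.sum_congr rfl fun x _ => ?_
  split_ifs <;> simp

/-- `g` restricts to `h`. -/
def Rel (ι : U ↪ V) (g : Perm V) (h : Perm U) : Prop := ∀ a, g (ι a) = ι (h a)

lemma Rel.swap_in {ι : U ↪ V} {g : Perm V} {h : Perm U} (r : Rel ι g h) (a b : U) :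
    Rel ι (g * swap (ι a) (ι b)) (h * swap a b) := by
  intro c
  rw [Perm.mul_apply, Perm.mul_apply, ← r]
  congr 1
  rw [swap_apply_def, swap_apply_def]
  simp only [EmbeddingLike.apply_eq_iff_eq]
  split_ifs <;> rfl

lemma Rel.swap_out {ι : U ↪ V} {g : Perm V} {h : Perm U} (r : Rel ι g h) {x y : V}
    (hx : x ∉ Set.range ι) (hy : y ∉ Set.range ι) : Rel ι (g * swap x y) h := by
  intro c
  rw [Perm.mul_apply, swap_apply_of_ne_of_ne, r]
  · intro e; exact hx ⟨c, e⟩
  · intro e; exact hy ⟨c, e⟩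

lemma Rel.inv {ι : U ↪ V} {g : Perm V} {h : Perm U} (r : Rel ι g h) : Rel ι g⁻¹ h⁻¹ := by
  intro a
  rw [Perm.inv_eq_iff_eq, r]
  congr 1
  exact (h.apply_symm_apply a).symm

lemma Rel.mul {ι : U ↪ V} {g g' : Perm V} {h h' : Perm U} (r : Rel ι g h) (r' : Rel ι g' h') :
    Rel ι (g * g') (h * h') := by
  intro a
  rw [Perm.mul_apply, Perm.mul_apply, r', r]

lemma Rel.one {ι : U ↪ V} : Rel ι (1 : Perm V) (1 : Perm U) := fun _ => rfl

lemma Rel.pow {ι : U ↪ V} {g : Perm V} {h : Perm U} (r : Rel ι g h) (n : ℕ) :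
    Rel ι (g ^ n) (h ^ n) := by
  induction n with
  | zero => rw [pow_zero, pow_zero]; exact Rel.one
  | succ n ih => rw [pow_succ, pow_succ]; exact ih.mul r

lemma Rel.zpow {ι : U ↪ V} {g : Perm V} {h : Perm U} (r : Rel ι g h) (n : ℤ) :
    Rel ι (g ^ n) (h ^ n) := by
  rcases n.eq_nat_or_neg with ⟨m, rfl | rfl⟩
  · rw [zpow_natCast, zpow_natCast]; exact r.pow m
  · rw [zpow_neg, zpow_neg, zpow_natCast, zpow_natCast]; exact (r.pow m).inv

lemma Rel.sameCycle {ι : U ↪ V} {g : Perm V} {h : Perm U} (r : Rel ι g h) (a b : U) :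
    g.SameCycle (ι a) (ι b) ↔ h.SameCycle a b := by
  unfold Perm.SameCycle
  refine exists_congr fun n => ?_
  rw [r.zpow n a]
  exact ι.injective.eq_iff

lemma Rel.not_sameCycle {ι : U ↪ V} {g : Perm V} {h : Perm U} (r : Rel ι g h) (a : U) {v : V}
    (hv : v ∉ Set.range ι) : ¬ g.SameCycle (ι a) v := by
  rintro ⟨n, hn⟩
  rw [r.zpow n a] at hn
  exact hv ⟨_, hn⟩

lemma Rel.len {ι : U ↪ V} {g : Perm V} {h : Perm U} (r : Rel ι g h) (a : U) :
    len g (ι a) = len h a := by
  classical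
  unfold Pool.Agent.W805.LR.len cnt
  rw [split ι]
  have e1 : ∑ x, (if x ∈ Set.range ι then (0 : ℝ) else
      if g.SameCycle (ι a) x then (1 : ℝ) else 0) = 0 := by
    refine Finset.sum_eq_zero fun x _ => ?_
    split_ifs with h1 h2
    · rfl
    · exact absurd h2 (r.not_sameCycle a h1)
    · rfl
  have e2 : ∑ b, (if g.SameCycle (ι a) (ι b) then (1 : ℝ) else 0) =
      ∑ b, (if h.SameCycle a b then (1 : ℝ) else 0) := by
    refine Finset.sum_congr rfl fun b _ => ?_
    simp only [r.sameCycle a b]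
  calc _ = ∑ b, (if g.SameCycle (ι a) (ι b) then (1 : ℝ) else 0) +
      ∑ x, (if x ∈ Set.range ι then (0 : ℝ) else
      if g.SameCycle (ι a) x then (1 : ℝ) else 0) := by
        congr 1
        · exact Finset.sum_congr rfl fun b _ => by congr
        · exact Finset.sum_congr rfl fun b _ => by congr
    _ = _ := by
      rw [e1, e2, add_zero]
      exact Finset.sum_congr rfl fun b _ => by congr

/-- the rate outside -/
noncomputable def Rc (ι : U ↪ V) (J : V → V → ℝ) : ℝ :=
  open Classical in ∑ x, if x ∈ Set.range ι then 0 else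
    ∑ y, if y ∈ Set.range ι then 0 else J x y / 2

/-- related functions -/
def RelF (ι : U ↪ V) (F : Perm V → ℝ) (f : Perm U → ℝ) : Prop :=
  ∀ g h, Rel ι g h → F g = f h

lemma gen_rel {ι : U ↪ V} {J : V → V → ℝ}
    (hJ : ∀ u v, v ∉ Set.range ι → J (ι u) v = 0 ∧ J v (ι u) = 0)
    {F : Perm V → ℝ} {f : Perm U → ℝ} (h : RelF ι F f) {g : Perm V} {k : Perm U}
    (r : Rel ι g k) :
    gen J F g = gen (fun a b => J (ι a) (ι b)) f k + Rc ι J * f k := by
  classical
  rw [gen_apply, gen_apply, split ι]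
  congr 1
  · refine Finset.sum_congr rfl fun a _ => ?_
    rw [split ι]
    have e1 : ∑ y, (if y ∈ Set.range ι then (0 : ℝ) else
        J (ι a) y / 2 * F (g * swap (ι a) y)) = 0 := by
      refine Finset.sum_eq_zero fun y _ => ?_
      split_ifs with h1
      · rfl
      · rw [(hJ a y h1).1]; ring
    have e2 : ∑ b, J (ι a) (ι b) / 2 * F (g * swap (ι a) (ι b)) =
        ∑ b, J (ι a) (ι b) / 2 * f (k * swap a b) := by
      refine Finset.sum_congr rfl fun b _ => ?_
      rw [h _ _ (r.swap_in a b)]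
    calc _ = ∑ b, J (ι a) (ι b) / 2 * F (g * swap (ι a) (ι b)) +
        ∑ y, (if y ∈ Set.range ι then (0 : ℝ) else
        J (ι a) y / 2 * F (g * swap (ι a) y)) := by congr 1
      _ = _ := by rw [e1, e2, add_zero]
  · rw [Rc, Finset.sum_mul]
    refine Finset.sum_congr rfl fun x _ => ?_
    by_cases hx : x ∈ Set.range ι
    · simp only [hx, if_true, zero_mul]
    · simp only [hx, if_false]
      rw [split ι]
      have e1 : ∑ b, J x (ι b) / 2 * F (g * swap x (ι b)) = 0 := by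
        refine Finset.sum_eq_zero fun b _ => ?_
        rw [(hJ b x hx).2]; ring
      rw [e1, zero_add, Finset.sum_mul]
      refine Finset.sum_congr rfl fun y _ => ?_
      by_cases hy : y ∈ Set.range ι
      · simp only [hy, if_true, zero_mul]
      · simp only [hy, if_false]
        rw [h _ _ (r.swap_out hx hy)]

/-- the generator on `U` with the additional rate -/
noncomputable def TT (ι : U ↪ V) (J : V → V → ℝ) : (Perm U → ℝ) →L[ℝ] (Perm U → ℝ) :=
  gen (fun a b => J (ι a) (ι b)) + Rc ι J • (1 : (Perm U → ℝ) →L[ℝ] (Perm U → ℝ))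

lemma pow_rel {ι : U ↪ V} {J : V → V → ℝ}
    (hJ : ∀ u v, v ∉ Set.range ι → J (ι u) v = 0 ∧ J v (ι u) = 0)
    {F : Perm V → ℝ} {f : Perm U → ℝ} (h : RelF ι F f) (u : ℝ) (m : ℕ) :
    RelF ι (((1 + u • gen J) ^ m) F) (((1 + u • TT ι J) ^ m) f) := by
  induction m with
  | zero => rw [pow_zero, pow_zero]; exact h
  | succ m ih =>
    intro g k r
    rw [pow_succ', pow_succ']
    set G := ((1 + u • gen J) ^ m) F with hG
    set G' := ((1 + u • TT ι J) ^ m) f with hG'
    change G g + u * gen J G g = G' k + u * (gen (fun a b => J (ι a) (ι b)) G' k + Rc ι J * G' k)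
    rw [ih g k r, gen_rel hJ ih r]

lemma exp_rel {ι : U ↪ V} {J : V → V → ℝ}
    (hJ : ∀ u v, v ∉ Set.range ι → J (ι u) v = 0 ∧ J v (ι u) = 0)
    {F : Perm V → ℝ} {f : Perm U → ℝ} (h : RelF ι F f) (t : ℝ) :
    (exp (t • gen J)) F 1 = (exp (t • TT ι J)) f 1 := by
  have l1 := tends J t F
  have l2 : Tendsto (fun M : ℕ => ((1 + (t / M) • TT ι J) ^ M) f 1) atTop
      (𝓝 ((exp (t • TT ι J)) f 1)) := by
    have h1 := tendsto_list_prod_pow [t • TT ι J]
    have h2 := ((evl f).continuous.tendsto _).comp h1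
    rw [evl_apply, List.sum_singleton] at h2
    refine h2.congr fun M => ?_
    rw [Function.comp_apply, evl_apply, List.map_singleton, List.prod_singleton, smul_smul]
    rw [div_eq_inv_mul]
  refine tendsto_nhds_unique l1 (l2.congr fun M => ?_)
  exact (pow_rel hJ h (t / M) M 1 1 Rel.one).symm

lemma exp_TT (ι : U ↪ V) (J : V → V → ℝ) (t : ℝ) (f : Perm U → ℝ) :
    (exp (t • TT ι J)) f 1 =
      Real.exp (t * Rc ι J) * (exp (t • gen (fun a b => J (ι a) (ι b)))) f 1 := by
  let _ : NormedAlgebra ℚ ((Perm U → ℝ) →L[ℝ] (Perm U → ℝ)) :=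
    NormedAlgebra.restrictScalars ℚ ℝ _
  have e1 : t • TT ι J = algebraMap ℝ ((Perm U → ℝ) →L[ℝ] (Perm U → ℝ)) (t * Rc ι J) +
      t • gen (fun a b => J (ι a) (ι b)) := by
    rw [TT, smul_add, smul_smul, add_comm, Algebra.algebraMap_eq_smul_one]
  rw [e1, exp_add_of_commute (Algebra.commutes _ _), ← algebraMap_exp_comm,
    Algebra.algebraMap_eq_smul_one, smul_mul_assoc, one_mul, Real.exp_eq_exp_ℝ]
  rfl

end

/-- PD3-SU. -/
theorem main : Pool.Agent.W805.PD.S_sub := by
  intro U V _ _ _ _ ι J t s u _ hJ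
  rw [EE_eq, EE_eq]
  have h1 : RelF ι (fun g => if len g (ι u) < s then (1 : ℝ) else 0)
      (fun h => if len h u < s then (1 : ℝ) else 0) := by
    intro g h r
    simp only [r.len u]
  have h2 : RelF ι (fun _ => (1 : ℝ)) (fun _ => (1 : ℝ)) := fun _ _ _ => rfl
  rw [exp_rel hJ h1, exp_rel hJ h2, exp_TT, exp_TT]
  rw [mul_div_mul_left _ _ (Real.exp_pos _).ne']

end Pool.Agent.W571.PD.SU
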